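import Pool.Agent.Y89.TX.Stm
import Pool.Agent.Y165.TS.COMM
import Pool.Agent.Y259.TS.Mono

/-! Job TX-NORM0. -/

set_option autoImplicit false

open Matrix Finset

namespace Pool.Agent.Y195.TX

open Pool.Agent.Y89.TS
open Pool.Agent.Y259.TS (gam_comm t_mono)
open Pool.Agent.Y165.TS (t_comm)

variable {N : Type} [Fintype N] [DecidableEq N] {n : ℕ} {Γ : Fin n → Matrix N N ℂ}

/-- the product along a word -/
def wd (Γ : Fin n → Matrix N N ℂ) (l : List (Fin n)) : Matrix N N ℂ := (l.map Γ).prod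

lemma wd_nil : wd Γ [] = 1 := by simp [wd]

lemma wd_cons (a : Fin n) (l : List (Fin n)) : wd Γ (a :: l) = Γ a * wd Γ l := by simp [wd]

lemma wd_append (l l' : List (Fin n)) : wd Γ (l ++ l') = wd Γ l * wd Γ l' := by simp [wd]

/-- the span of the even words -/
def EW (Γ : Fin n → Matrix N N ℂ) : Submodule ℂ (Matrix N N ℂ) :=
  Submodule.span ℂ {z | ∃ l : List (Fin n), Even l.length ∧ z = wd Γ l}

lemma tau_one {τ : Matrix N N ℂ →ₗ[ℂ] Matrix N N ℂ} (hΓ : Clf Γ) (hn : 4 ≤ n)
    (h1 : ∀ a b, τ (a * b) = τ b * τ a)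
    (h2 : ∀ i j, i ≠ j → τ (Γ i * Γ j) = -(Γ i * Γ j)) : τ 1 = 1 := by
  set a : Fin n := ⟨0, by omega⟩
  set b : Fin n := ⟨1, by omega⟩
  have hab : a ≠ b := by simp [a, b]
  have e1 : (Γ a * Γ b) * (Γ b * Γ a) = 1 := by
    rw [mul_assoc, ← mul_assoc (Γ b), hΓ.sq, one_mul, hΓ.sq]
  have e2 : τ (Γ a * Γ b) = Γ b * Γ a := by
    rw [h2 a b hab, hΓ.anti a b hab, neg_neg]
  have e3 : τ (Γ b * Γ a) = Γ a * Γ b := by
    rw [h2 b a hab.symm, hΓ.anti b a hab.symm, neg_neg]
  calc τ 1 = τ ((Γ a * Γ b) * (Γ b * Γ a)) := by rw [e1]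
    _ = (Γ a * Γ b) * (Γ b * Γ a) := by rw [h1, e2, e3]
    _ = 1 := e1

lemma tau_pair {τ : Matrix N N ℂ →ₗ[ℂ] Matrix N N ℂ} (hΓ : Clf Γ) (hn : 4 ≤ n)
    (h1 : ∀ a b, τ (a * b) = τ b * τ a)
    (h2 : ∀ i j, i ≠ j → τ (Γ i * Γ j) = -(Γ i * Γ j)) (a b : Fin n) :
    τ (Γ a * Γ b) = Γ b * Γ a := by
  by_cases hab : a = b
  · subst hab
    rw [hΓ.sq, tau_one hΓ hn h1 h2]
  · rw [h2 a b hab, hΓ.anti a b hab, neg_neg]

lemma tau_wd {τ : Matrix N N ℂ →ₗ[ℂ] Matrix N N ℂ} (hΓ : Clf Γ) (hn : 4 ≤ n)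
    (h1 : ∀ a b, τ (a * b) = τ b * τ a)
    (h2 : ∀ i j, i ≠ j → τ (Γ i * Γ j) = -(Γ i * Γ j)) :
    ∀ (m : ℕ) (l : List (Fin n)), l.length = 2 * m → τ (wd Γ l) = wd Γ l.reverse := by
  intro m
  induction m with
  | zero =>
    intro l hl
    have : l = [] := List.length_eq_zero_iff.1 (by omega)
    subst this
    rw [List.reverse_nil, wd_nil, tau_one hΓ hn h1 h2]
  | succ m ih =>
    intro l hl
    match l, hl with
    | a :: b :: l, hl =>
      simp only [List.length_cons] at hl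
      rw [wd_cons, wd_cons, ← mul_assoc, h1, ih l (by omega), tau_pair hΓ hn h1 h2,
        List.reverse_cons, List.reverse_cons, wd_append, wd_append, wd_cons, wd_cons, wd_nil,
        mul_one, mul_one, mul_assoc]

lemma tau_wd' {τ : Matrix N N ℂ →ₗ[ℂ] Matrix N N ℂ} (hΓ : Clf Γ) (hn : 4 ≤ n)
    (h1 : ∀ a b, τ (a * b) = τ b * τ a)
    (h2 : ∀ i j, i ≠ j → τ (Γ i * Γ j) = -(Γ i * Γ j)) (l : List (Fin n))
    (hl : Even l.length) : τ (wd Γ l) = wd Γ l.reverse := by
  obtain ⟨m, hm⟩ := hl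
  exact tau_wd hΓ hn h1 h2 m l (by omega)

/-- the involution on the even words -/
lemma tau_tau {τ : Matrix N N ℂ →ₗ[ℂ] Matrix N N ℂ} (hΓ : Clf Γ) (hn : 4 ≤ n)
    (h1 : ∀ a b, τ (a * b) = τ b * τ a)
    (h2 : ∀ i j, i ≠ j → τ (Γ i * Γ j) = -(Γ i * Γ j)) {a : Matrix N N ℂ} (ha : a ∈ EW Γ) :
    τ (τ a) = a := by
  induction ha using Submodule.span_induction with
  | mem x hx =>
    obtain ⟨l, hl, rfl⟩ := hx
    rw [tau_wd' hΓ hn h1 h2 l hl, tau_wd' hΓ hn h1 h2 l.reverse (by simpa using hl),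
      List.reverse_reverse]
  | zero => simp
  | add x y _ _ hx hy => rw [map_add, map_add, hx, hy]
  | smul c x _ hx => rw [map_smul, map_smul, hx]

/-- the involution on odd-even-odd products -/
lemma tau_mid {τ : Matrix N N ℂ →ₗ[ℂ] Matrix N N ℂ} (hΓ : Clf Γ) (hn : 4 ≤ n)
    (h1 : ∀ a b, τ (a * b) = τ b * τ a)
    (h2 : ∀ i j, i ≠ j → τ (Γ i * Γ j) = -(Γ i * Γ j)) {a : Matrix N N ℂ} (ha : a ∈ EW Γ)
    (i k : Fin n) : τ (Γ k * a * Γ i) = Γ i * τ a * Γ k := by
  induction ha using Submodule.span_induction with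
  | mem x hx =>
    obtain ⟨l, hl, rfl⟩ := hx
    have e1 : Γ k * wd Γ l * Γ i = wd Γ (k :: (l ++ [i])) := by
      rw [wd_cons, wd_append, wd_cons, wd_nil, mul_one, mul_assoc]
    have e2 : Γ i * wd Γ l.reverse * Γ k = wd Γ (k :: (l ++ [i])).reverse := by
      rw [List.reverse_cons, List.reverse_append, wd_append, wd_append]
      simp only [List.reverse_cons, List.reverse_nil, List.nil_append, wd_cons, wd_nil, mul_one]
    rw [e1, tau_wd' hΓ hn h1 h2 _ (by
      simp only [List.length_cons, List.length_append, List.length_nil]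
      have : l.length + (0 + 1) + 1 = l.length + 2 := by ring
      rw [this]
      exact hl.add even_two), tau_wd' hΓ hn h1 h2 l hl, e2]
  | zero => simp
  | add x y _ _ hx hy => simp only [mul_add, add_mul, map_add, hx, hy]
  | smul c x _ hx => simp only [mul_smul_comm, smul_mul_assoc, map_smul, hx]

/-- a generator outside a word commutes with it up to a sign -/
lemma gam_wd (hΓ : Clf Γ) (a : Fin n) : ∀ l : List (Fin n), a ∉ l →
    wd Γ l * Γ a = ((-1 : ℂ) ^ l.length) • (Γ a * wd Γ l) := by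
  intro l
  induction l with
  | nil => intro _; simp [wd_nil]
  | cons b l ih =>
    intro h
    rw [List.mem_cons, not_or] at h
    rw [wd_cons, mul_assoc, ih h.2, mul_smul_comm, ← mul_assoc, hΓ.anti b a (Ne.symm h.1),
      neg_mul, smul_neg, List.length_cons, pow_succ, mul_neg_one, neg_smul, mul_assoc]

/-- reversing a word without repetitions -/
lemma wd_reverse (hΓ : Clf Γ) : ∀ l : List (Fin n), l.Nodup →
    wd Γ l.reverse = ((-1 : ℂ) ^ (l.length * (l.length - 1) / 2)) • wd Γ l := by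
  intro l
  induction l with
  | nil => intro _; simp [wd_nil]
  | cons a l ih =>
    intro h
    rw [List.nodup_cons] at h
    rw [List.reverse_cons, wd_append, wd_cons, wd_nil, mul_one, ih h.2, smul_mul_assoc,
      gam_wd hΓ a l h.1, smul_smul, ← pow_add, wd_cons]
    congr 2
    rw [List.length_cons, Nat.add_sub_cancel]
    have e1 : (l.length + 1) * l.length / 2 = l.length * (l.length - 1) / 2 + l.length := by
      rcases Nat.eq_zero_or_pos l.length with h0 | h0
      · rw [h0]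
      · obtain ⟨m, hm⟩ : ∃ m, l.length = m + 1 := ⟨l.length - 1, by omega⟩
        rw [hm, Nat.add_sub_cancel]
        have : (m + 1 + 1) * (m + 1) = (m + 1) * m + (m + 1) * 2 := by ring
        rw [this, Nat.add_mul_div_right _ _ (by norm_num)]
    rw [e1]

theorem t_norm0 : Pool.Agent.Y89.TX.S_norm0 := by
  intro N _ _ n Γ hΓ hn4 hn g g' hgg hgg' hcom τ h1 h2 hτ r α β hr hx
  set w := mono Γ univ with hw
  -- g is a combination of even words
  have hgE : g ∈ EW Γ := by
    have := t_comm t_mono N n Γ hΓ g hcom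
    refine Submodule.span_mono ?_ this
    rintro z ⟨s, hs, rfl⟩
    exact ⟨s.sort (· ≤ ·), by rwa [Finset.length_sort], rfl⟩
  have hn2 : Even n := ⟨n / 2, by omega⟩
  -- the volume element
  have hτw : τ w = w := by
    have e0 : w = wd Γ ((univ : Finset (Fin n)).sort (· ≤ ·)) := rfl
    have e1 : ((univ : Finset (Fin n)).sort (· ≤ ·)).length = n := by
      rw [Finset.length_sort, Finset.card_univ, Fintype.card_fin]
    have e2 := wd_reverse hΓ ((univ : Finset (Fin n)).sort (· ≤ ·)) (Finset.sort_nodup _ _)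
    rw [e0, tau_wd' hΓ hn h1 h2 _ (by rw [e1]; exact hn2), e2, e1]
    have e3 : Even (n * (n - 1) / 2) := by
      obtain ⟨k, hk⟩ : ∃ k, n = 4 * k := ⟨n / 4, by omega⟩
      refine ⟨k * (n - 1), ?_⟩
      have : n * (n - 1) = (k * (n - 1) + k * (n - 1)) * 2 := by
        calc n * (n - 1) = (4 * k) * (n - 1) := by rw [← hk]
          _ = _ := by ring
      rw [this, Nat.mul_div_cancel _ (by norm_num)]
    rw [e3.neg_one_pow, one_smul]
  have hwΓ : ∀ i, Γ i * w = -(w * Γ i) := by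
    intro i
    have := gam_comm hΓ i (univ : Finset (Fin n))
    rw [if_pos (Finset.mem_univ i), Finset.card_univ, Fintype.card_fin] at this
    rw [this, (hn2.add_one).neg_one_pow, neg_smul, one_smul]
  -- choose an index
  set i : Fin n := ⟨0, by omega⟩ with hi
  set x : Matrix N N ℂ := ∑ j, r j i • Γ j with hxdef
  have hxx : x * x = 1 := by
    have e1 : x * x + x * x = (2 : ℂ) • (1 : Matrix N N ℂ) := by
      have e2 : x * x = ∑ j, ∑ k, (r j i * r k i) • (Γ j * Γ k) := by
        rw [hxdef, Finset.sum_mul_sum]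
        refine Finset.sum_congr rfl fun j _ => Finset.sum_congr rfl fun k _ => ?_
        rw [smul_mul_smul_comm]
      have e3 : x * x = ∑ j, ∑ k, (r j i * r k i) • (Γ k * Γ j) := by
        rw [e2, Finset.sum_comm]
        refine Finset.sum_congr rfl fun j _ => Finset.sum_congr rfl fun k _ => ?_
        rw [mul_comm (r k i)]
      have e4 : x * x + x * x = ∑ j, ∑ k, (r j i * r k i) • (Γ j * Γ k + Γ k * Γ j) := by
        conv_lhs => arg 1; rw [e2]
        conv_lhs => arg 2; rw [e3]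
        rw [← Finset.sum_add_distrib]
        refine Finset.sum_congr rfl fun j _ => ?_
        rw [← Finset.sum_add_distrib]
        refine Finset.sum_congr rfl fun k _ => ?_
        rw [smul_add]
      have e5 : ∀ j, ∑ k, (r j i * r k i) • (Γ j * Γ k + Γ k * Γ j) =
          (2 * (r j i * r j i)) • (1 : Matrix N N ℂ) := by
        intro j
        rw [Finset.sum_eq_single j]
        · rw [hΓ.sq, ← two_smul ℂ (1 : Matrix N N ℂ), smul_smul, mul_comm]
        · intro k _ hk
          rw [hΓ.anti k j hk, add_neg_cancel, smul_zero]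
        · intro h; exact absurd (Finset.mem_univ j) h
      rw [e4, Finset.sum_congr rfl fun j _ => e5 j, ← Finset.sum_smul, ← Finset.mul_sum]
      have e6 : ∑ j, r j i * r j i = 1 := by
        have h5 : rᵀ * r = 1 := mul_eq_one_comm.1 hr
        have h6 := congrFun (congrFun h5 i) i
        rw [Matrix.mul_apply, Matrix.one_apply_eq] at h6
        simpa [Matrix.transpose_apply] using h6
      rw [e6, mul_one]
    have e7 : (2 : ℂ) • (x * x) = (2 : ℂ) • (1 : Matrix N N ℂ) := by rw [two_smul, e1]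
    exact smul_right_injective _ (two_ne_zero' ℂ) e7
  set k : Fin n := i
  have hk2 : Γ k * Γ k = 1 := hΓ.sq k
  -- the two computations
  have hxi := hx i
  have hxw : x * w = -(w * x) := by
    rw [hxdef, Finset.sum_mul, Finset.mul_sum, ← Finset.sum_neg_distrib]
    refine Finset.sum_congr rfl fun j _ => ?_
    rw [smul_mul_assoc, mul_smul_comm, hwΓ j, smul_neg]
  have c1 : τ (Γ k * (g * Γ i * g')) = g * Γ i * g' * Γ k := by
    have : Γ k * (g * Γ i * g') = (Γ k * g * Γ i) * g' := by simp only [mul_assoc]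
    rw [this, h1, tau_mid hΓ hn h1 h2 hgE, hτ, ← hτ, tau_tau hΓ hn h1 h2 hgE]
    simp only [mul_assoc]
  have hΓx : τ (Γ k * x) = x * Γ k := by
    rw [hxdef, Finset.mul_sum, map_sum, Finset.sum_mul]
    refine Finset.sum_congr rfl fun j _ => ?_
    rw [mul_smul_comm, map_smul, tau_pair hΓ hn h1 h2, smul_mul_assoc]
  have c2 : τ (Γ k * (g * Γ i * g')) = α • (x * Γ k) + β • (w * x * Γ k) := by
    rw [hxi]
    have : Γ k * (x * (α • (1 : Matrix N N ℂ) + β • w)) = α • (Γ k * x) + β • ((Γ k * x) * w) := by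
      simp only [mul_add, mul_smul_comm, mul_one, mul_assoc]
    rw [this, map_add, map_smul, map_smul, h1 (Γ k * x) w, hτw, hΓx, mul_assoc]
  have c3 : g * Γ i * g' * Γ k = α • (x * Γ k) - β • (w * x * Γ k) := by
    rw [hxi]
    have : x * (α • (1 : Matrix N N ℂ) + β • w) * Γ k = α • (x * Γ k) + β • ((x * w) * Γ k) := by
      simp only [mul_add, add_mul, mul_smul_comm, smul_mul_assoc, mul_one]
    rw [this, hxw, neg_mul, smul_neg, sub_eq_add_neg]
  have c4 : (2 : ℂ) • (β • (w * x * Γ k)) = 0 := by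
    have h5 := c2.symm.trans (c1.trans c3)
    have h6 : β • (w * x * Γ k) = -(β • (w * x * Γ k)) := by
      rw [sub_eq_add_neg] at h5
      exact add_left_cancel h5
    rw [two_smul]
    nth_rewrite 1 [h6]
    exact neg_add_cancel _
  have c5 : β • (w * x * Γ k) = 0 := (smul_eq_zero.1 c4).resolve_left (two_ne_zero' ℂ)
  calc β • w = (β • (w * x * Γ k)) * (Γ k * x) := by
        rw [smul_mul_assoc]
        congr 1
        rw [mul_assoc (w * x), ← mul_assoc (Γ k), hk2, one_mul, mul_assoc, hxx, mul_one]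
    _ = 0 := by rw [c5, zero_mul]

end Pool.Agent.Y195.TX
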